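import Mathlib
import Pool.Agent.P8H19.TP.Fin

set_option autoImplicit false

/-!
# No Dirichlet character has Turán's property (T)

For every modulus `k` and every Dirichlet character `χ` modulo `k` there are arbitrarily large `N`
such that the partial sum `∑_{n ≤ N} χ(n) n^(-s)` has a zero with real part larger than `1`. So the
hypothesis of the question is never satisfied, and the answer to the question is yes.

Proof. By Kronecker's theorem and the maximum principle (Bohr's equivalence) it is enough to find a
completely multiplicative `f`, zero at the primes dividing `k` and unimodular at the others, with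
`∑_{n ≤ N} f(n) n^(-σ) = 0` for some real `σ > 1`. If there is none for all large `N`, the sums
`S(N) = ∑_{n ≤ N, (n, k) = 1} λ(n) / n` are nonnegative for large `N`, and as the Dirichlet series of
`λ` vanishes at `1`, `∑ S(n) / n` converges. The same then holds for the absolute values of the sums
`S_g` of the function `g` which is `i` at the least prime `q` not dividing `k` and `-1` at the
others, so that `S_g(N) = o(1 / log N)` on a sequence of `N`. For such `N` the sums `S_g(N / p) / p`
over the primes `p` between `√N` and `N` are vectors of different directions, and by the prime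
number theorem the polygon inequality for them and the rest of the sum is strict; changing the values
at these primes one gets a vanishing sum.
-/

namespace Pool.Agent.Results.MP_ff1a2a_nt.NoPropertyT

open Finset

/-- Infinitely many partial sums of every Dirichlet L-series have zeros with real part larger than
`1`; hence every character all of whose partial sums are zero-free there satisfies the Riemann
hypothesis (there is no such character). -/
theorem result :
    (∀ (k : ℕ) [NeZero k] (χ : DirichletCharacter ℂ k) (X : ℕ), ∃ N : ℕ, X ≤ N ∧
      ∃ s : ℂ, 1 < s.re ∧ ∑ n ∈ Icc 1 N, χ (n : ZMod k) * (n : ℂ) ^ (-s) = 0) ∧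
    (∀ (k : ℕ) [NeZero k] (χ : DirichletCharacter ℂ k),
      (∀ N : ℕ, 1 ≤ N → ∀ s : ℂ, 1 < s.re →
        ∑ n ∈ Icc 1 N, χ (n : ZMod k) * (n : ℂ) ^ (-s) ≠ 0) →
      ∀ s : ℂ, 1 / 2 < s.re → DirichletCharacter.LFunction χ s ≠ 0) := by
  refine ⟨fun k hk χ X => ?_, fun k hk χ hT => ?_⟩
  · exact Pool.Agent.P8H19.TP.main (NeZero.ne k) χ X
  · obtain ⟨N, hN, s, hs, h0⟩ := Pool.Agent.P8H19.TP.main (NeZero.ne k) χ 1
    exact absurd h0 (hT N hN s hs)

end Pool.Agent.Results.MP_ff1a2a_nt.NoPropertyT
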